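import Pool.Agent.W626.AH.Stm

/-!
# Project AH, part BAC: from data to actions
-/

set_option autoImplicit false

namespace Pool.Agent.W692.AH

open Pool.Agent.W626.AH

theorem pd_nd {G : Type} [Group G] {ℓ : G → ℝ} {R M : ℕ} {g : G} {q B : ℕ}
    (h : GCond ℓ R M g q B) : PD (nd ℓ) where
  self x := by
    show ℓ (x⁻¹ * x) = 0
    rw [inv_mul_cancel, h.one]
  symm x y := by
    show ℓ (x⁻¹ * y) = ℓ (y⁻¹ * x)
    rw [← h.inv (x⁻¹ * y), mul_inv_rev, inv_inv]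
  tri x y z := by
    show ℓ (x⁻¹ * z) ≤ ℓ (x⁻¹ * y) + ℓ (y⁻¹ * z)
    have := h.mul (x⁻¹ * y) (y⁻¹ * z)
    have e : x⁻¹ * y * (y⁻¹ * z) = x⁻¹ * z := by group
    rwa [e] at this

/-- the metric space structure of the hull -/
@[reducible] noncomputable def hullMS {X : Type} {d : X → X → ℝ}
    (hpd : PD (hd : Hull d → Hull d → ℝ)) (h0 : ∀ f g : Hull d, hd f g = 0 → f = g) :
    MetricSpace (Hull d) where
  dist := hd
  dist_self := hpd.self
  dist_comm := hpd.symm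
  dist_triangle := hpd.tri
  eq_of_dist_eq_zero := fun {f g} h => h0 f g h

theorem main : Pool.Agent.W626.AH.S_hm → Pool.Agent.W626.AH.S_hh → Pool.Agent.W626.AH.S_geo →
    Pool.Agent.W626.AH.S_act → Pool.Agent.W626.AH.S_hac → Pool.Agent.W626.AH.S_one →
    Pool.Agent.W626.AH.S_bac := by
  intro hm hh geo hact hac hone G _ ℓ R M g q B hG
  have hpd : PD (nd ℓ) := pd_nd hG
  obtain ⟨-, -, hpd', h0, hpt⟩ := hm G (nd ℓ) hpd
  have hgeo := geo G (nd ℓ) hpd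
  have hiso : Isom G (hd : Hull (nd ℓ) → Hull (nd ℓ) → ℝ) := hact G ℓ hpd
  have hhyp : H1 (hd : Hull (nd ℓ) → Hull (nd ℓ) → ℝ) := hh G (nd ℓ) hpd hG.hyp
  have hmid : Mid (hd : Hull (nd ℓ) → Hull (nd ℓ) → ℝ) := by
    intro x y s t hs hst ht
    obtain ⟨γ, h1, h2, h3⟩ := hgeo x y
    have hxy : 0 ≤ hd x y := le_trans hs (le_trans hst ht)
    refine ⟨γ s, γ t, ?_, ?_, ?_, ?_, h3 s t hs hst ht⟩
    · have := h3 0 s le_rfl hs (le_trans hst ht)
      rw [h1, sub_zero] at this; exact this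
    · have := h3 s (hd x y) hs (le_trans hst ht) le_rfl
      rw [h2] at this; exact this
    · have := h3 0 t le_rfl (le_trans hs hst) ht
      rw [h1, sub_zero] at this; exact this
    · have := h3 t (hd x y) (le_trans hs hst) ht le_rfl
      rw [h2] at this; exact this
  have hacy : Acy G (hd : Hull (nd ℓ) → Hull (nd ℓ) → ℝ) :=
    hone G (Hull (nd ℓ)) hd hpd' hhyp hmid hiso (R + 5) M (hac G ℓ R M g q B hG)
  refine ⟨Hull (nd ℓ), hullMS hpd' h0, instAct ℓ, ?_, ?_, ?_, ?_, ?_⟩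
  · exact hiso
  · exact hgeo
  · exact ⟨1, hhyp⟩
  · exact hacy
  · obtain ⟨e, he, hfe⟩ := hpt (1 : G)
    refine ⟨e, fun C => ?_⟩
    obtain ⟨k, hk⟩ := exists_nat_gt (((q : ℝ) + 1) * (C + B))
    refine ⟨g ^ k, ?_⟩
    show C < hd e (g ^ k • e)
    rw [hpd'.symm, hfe, smul_val, he]
    show C < ℓ ((1 : G)⁻¹ * ((g ^ k)⁻¹ * 1))
    rw [inv_one, one_mul, mul_one, hG.inv]
    have h1 := hG.lox k
    have hq : (0 : ℝ) < (q : ℝ) + 1 := by positivity
    have h2 : ((q : ℝ) + 1) * (C + B) < ((q : ℝ) + 1) * (ℓ (g ^ k) + B) := lt_of_lt_of_le hk h1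
    have h3 := lt_of_mul_lt_mul_left h2 hq.le
    linarith

end Pool.Agent.W692.AH
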